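import Mathlib

set_option autoImplicit false

namespace Pool.Agent.Helper590.Ke

open Finset

def Representable (n : ℕ) : Prop :=
  ∃ x y z : ℤ, (n : ℤ) = x ^ 2 + y ^ 2 - z ^ 2 ∧ x ^ 2 ≤ n ∧ y ^ 2 ≤ n ∧ z ^ 2 ≤ n

theorem rep_odd (a b : ℕ) (hb : b % 2 = 1) (hba : b ≤ 2 * a) : Representable (a ^ 2 + b) := by
  obtain ⟨m, hm⟩ : ∃ m, b = 2 * m + 1 := ⟨b / 2, by omega⟩
  have hma : m + 1 ≤ a := by omega
  have h1 : ((m : ℤ) + 1) ^ 2 ≤ (a : ℤ) ^ 2 := pow_le_pow_left₀ (by positivity) (by exact_mod_cast hma) 2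
  have h2 : (0 : ℤ) ≤ b := by positivity
  have h3 : (0 : ℤ) ≤ m := by positivity
  refine ⟨a, m + 1, m, ?_, ?_, ?_, ?_⟩
  · rw [hm]; push_cast; ring
  · push_cast; linarith
  · push_cast; linarith
  · push_cast; nlinarith

theorem rep_factor (a b p j l : ℤ) (hp : p % 2 = 1) (hj : j % 2 = 1) (hj1 : 1 ≤ j) (hjp : j ≤ p - 2)
    (hpa : 2 * p ≤ a) (hb : b % 2 = 0) (hb0 : 0 ≤ b) (hba : b ≤ 2 * a)
    (h : b + 2 * a * j - j ^ 2 = p * l) :
    ∃ x y z : ℤ, a ^ 2 + b = x ^ 2 + y ^ 2 - z ^ 2 ∧ x ^ 2 ≤ a ^ 2 + b ∧ y ^ 2 ≤ a ^ 2 + b ∧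
      z ^ 2 ≤ a ^ 2 + b := by
  have hp0 : 0 < p := by linarith
  have hpl : 0 < p * l := by
    rw [← h]
    have : 0 < j * (2 * a - j) := mul_pos (by linarith) (by linarith)
    linarith
  have hl : 0 < l := (mul_pos_iff_of_pos_left hp0).mp hpl
  have hlodd : l % 2 = 1 := by
    rcases Int.emod_two_eq_zero_or_one l with h1 | h1
    · exfalso
      obtain ⟨l', hl'⟩ : (2 : ℤ) ∣ l := Int.dvd_of_emod_eq_zero h1
      obtain ⟨b', hb'⟩ : (2 : ℤ) ∣ b := Int.dvd_of_emod_eq_zero hb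
      obtain ⟨j', hj'⟩ : (2 : ℤ) ∣ j - 1 := by omega
      have hj2 : j = 2 * j' + 1 := by linarith
      rw [hl', hb', hj2] at h
      have h2 : 2 * (b' + a * (2 * j' + 1) - 2 * j' ^ 2 - 2 * j' - p * l') = 1 := by linarith
      omega
    · exact h1
  obtain ⟨y, hy⟩ : ∃ y, p + l = 2 * y := ⟨(p + l) / 2, by omega⟩
  obtain ⟨z, hz⟩ : ∃ z, l - p = 2 * z := ⟨(l - p) / 2, by omega⟩
  have hx0 : 0 ≤ a - j := by linarith
  have hyz : y ^ 2 - z ^ 2 = p * l := by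
    have e1 : y + z = l := by linarith
    have e2 : y - z = p := by linarith
    have e3 : y ^ 2 - z ^ 2 = (y + z) * (y - z) := by ring
    rw [e3, e1, e2]; ring
  have hl2 : l ≤ 2 * (a - j) + p := by
    have e1 : p * l ≤ p * (2 * (a - j) + p) := by
      rw [← h]
      have e2 : 0 ≤ 2 * a * (p - 1 - j) := mul_nonneg (by linarith) (by linarith)
      have e3 : 0 ≤ (p - j) ^ 2 := by positivity
      linarith
    exact le_of_mul_le_mul_left e1 hp0
  have hz2 : z ^ 2 ≤ (a - j) ^ 2 := by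
    apply sq_le_sq'
    · linarith
    · linarith
  refine ⟨a - j, y, z, ?_, ?_, ?_, ?_⟩
  · linear_combination h - hyz
  · linarith
  · linarith
  · linarith

theorem rep_nat (a b p i : ℕ) (hp : p % 2 = 1) (hip : 2 * i + 3 ≤ p) (hpa : 2 * p ≤ a) (hba : b ≤ 2 * a)
    (h : (b : ZMod p) = ((2 * i + 1 : ℕ) : ZMod p) ^ 2 - 2 * (a : ZMod p) * ((2 * i + 1 : ℕ) : ZMod p)) :
    Representable (a ^ 2 + b) := by
  rcases Nat.mod_two_eq_zero_or_one b with hb | hb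
  · have h1 : ((p : ℕ) : ℤ) ∣ (b : ℤ) + 2 * a * ((2 * i + 1 : ℕ) : ℤ) - ((2 * i + 1 : ℕ) : ℤ) ^ 2 := by
      rw [← ZMod.intCast_zmod_eq_zero_iff_dvd]
      push_cast at h ⊢
      rw [h]; ring
    obtain ⟨l, hl⟩ := h1
    obtain ⟨x, y, z, h2, h3, h4, h5⟩ := rep_factor (a : ℤ) (b : ℤ) (p : ℤ) ((2 * i + 1 : ℕ) : ℤ) l
      (by omega) (by omega) (by omega) (by omega) (by omega) (by omega) (by omega) (by omega) hl
    exact ⟨x, y, z, by push_cast; exact h2, by push_cast; exact h3, by push_cast; exact h4,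
      by push_cast; exact h5⟩
  · exact rep_odd a b hb hba

theorem image_card (a p : ℕ) (hp : p.Prime) (hp2 : p ≠ 2) (h2p : 2 * p ≤ a) (S : Finset ℕ)
    (hS : ∀ b ∈ S, b ≤ 2 * a ∧ ¬ Representable (a ^ 2 + b)) :
    4 * (S.image (fun b : ℕ => (b : ZMod p))).card ≤ 3 * p + 1 := by
  classical
  have : Fact p.Prime := ⟨hp⟩
  have : NeZero p := ⟨hp.ne_zero⟩
  have hodd : p % 2 = 1 := by
    rcases hp.eq_two_or_odd with h | h
    · exact absurd h hp2
    · exact h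
  obtain ⟨h, hh⟩ : ∃ h, p = 2 * h + 1 := ⟨p / 2, by omega⟩
  let φ : ℕ → ZMod p := fun i => ((2 * i + 1 : ℕ) : ZMod p) ^ 2 - 2 * (a : ZMod p) * ((2 * i + 1 : ℕ) : ZMod p)
  have hinj : ∀ i i' : ℕ, i < h → i' < h → ((2 * i + 1 : ℕ) : ZMod p) = ((2 * i' + 1 : ℕ) : ZMod p) → i = i' := by
    intro i i' hi hi' he
    have h1 := (ZMod.natCast_eq_natCast_iff' _ _ _).mp he
    rw [Nat.mod_eq_of_lt (by omega), Nat.mod_eq_of_lt (by omega)] at h1
    omega
  have hfib : (range h).card ≤ 2 * ((range h).image φ).card := by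
    apply card_le_mul_card_image
    intro c _
    by_contra hcon
    have h2 : 2 < ((range h).filter (fun i => φ i = c)).card := not_le.mp hcon
    obtain ⟨i1, i2, i3, h1, h2, h3, h12, h13, h23⟩ := Finset.two_lt_card_iff.mp h2
    rw [mem_filter, mem_range] at h1 h2 h3
    have key : ∀ i i' : ℕ, i < h → i' < h → i ≠ i' → φ i = φ i' →
        ((2 * i + 1 : ℕ) : ZMod p) + ((2 * i' + 1 : ℕ) : ZMod p) = 2 * (a : ZMod p) := by
      intro i i' hi hi' hne he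
      have e1 : (((2 * i + 1 : ℕ) : ZMod p) - ((2 * i' + 1 : ℕ) : ZMod p)) *
          (((2 * i + 1 : ℕ) : ZMod p) + ((2 * i' + 1 : ℕ) : ZMod p) - 2 * (a : ZMod p)) = 0 := by
        have he' : ((2 * i + 1 : ℕ) : ZMod p) ^ 2 - 2 * (a : ZMod p) * ((2 * i + 1 : ℕ) : ZMod p) =
          ((2 * i' + 1 : ℕ) : ZMod p) ^ 2 - 2 * (a : ZMod p) * ((2 * i' + 1 : ℕ) : ZMod p) := he
        linear_combination he'
      rcases mul_eq_zero.mp e1 with e2 | e2
      · exact (hne (hinj i i' hi hi' (sub_eq_zero.mp e2))).elim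
      · exact sub_eq_zero.mp e2
    have k12 := key i1 i2 h1.1 h2.1 h12 (h1.2.trans h2.2.symm)
    have k13 := key i1 i3 h1.1 h3.1 h13 (h1.2.trans h3.2.symm)
    exact h23 (hinj i2 i3 h2.1 h3.1 (add_left_cancel (k12.trans k13.symm)))
  rw [card_range] at hfib
  have hdisj : Disjoint (S.image (fun b : ℕ => (b : ZMod p))) ((range h).image φ) := by
    rw [Finset.disjoint_left]
    intro c hc hc'
    rw [mem_image] at hc hc'
    obtain ⟨b, hb, hbc⟩ := hc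
    obtain ⟨i, hi, hic⟩ := hc'
    rw [mem_range] at hi
    exact (hS b hb).2 (rep_nat a b p i hodd (by omega) h2p (hS b hb).1 (hbc.trans hic.symm))
  have hcard : (S.image (fun b : ℕ => (b : ZMod p))).card + ((range h).image φ).card ≤ p := by
    rw [← card_union_of_disjoint hdisj]
    have := Finset.card_le_univ ((S.image (fun b : ℕ => (b : ZMod p))) ∪ ((range h).image φ))
    rwa [ZMod.card] at this
  omega

end Pool.Agent.Helper590.Ke
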