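import Mathlib

set_option autoImplicit false

namespace Pool.Agent.Helper590.Ke

open Finset

theorem log_fact_ge (n : ℕ) (hn : 1 ≤ n) : (n : ℝ) * Real.log n - n ≤ Real.log (n.factorial : ℝ) := by
  have hn0 : (0 : ℝ) < n := by exact_mod_cast hn
  have hf : (0 : ℝ) < (n.factorial : ℝ) := by exact_mod_cast n.factorial_pos
  have h1 : (n : ℝ) ^ n / (n.factorial : ℝ) ≤ Real.exp n := Real.pow_div_factorial_le_exp (n : ℝ) hn0.le n
  have h2 := Real.log_le_log (by positivity) h1
  rw [Real.log_exp, Real.log_div (by positivity) hf.ne', Real.log_pow] at h2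
  linarith

theorem mertens_low (n : ℕ) (hn : 1 ≤ n) :
    Real.log n - 1 ≤ ∑ p ∈ (range (n + 1)).filter Nat.Prime, Real.log p / ((p : ℝ) - 1) := by
  have hn0 : (0 : ℝ) < n := by exact_mod_cast hn
  have h1 := log_fact_ge n hn
  have h2 : Real.log (n.factorial : ℝ) ≤
      ∑ p ∈ (range (n + 1)).filter Nat.Prime, (n : ℝ) * (Real.log p / ((p : ℝ) - 1)) := by
    rw [Real.log_nat_eq_sum_factorization, Finsupp.sum, Nat.support_factorization]
    calc ∑ p ∈ (n.factorial).primeFactors, ((n.factorial).factorization p : ℝ) * Real.log p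
        ≤ ∑ p ∈ (n.factorial).primeFactors, (n : ℝ) * (Real.log p / ((p : ℝ) - 1)) := by
          apply sum_le_sum
          intro p hp
          have hpp := Nat.prime_of_mem_primeFactors hp
          have : Fact p.Prime := ⟨hpp⟩
          have h3 : (p - 1) * padicValNat p n.factorial ≤ n := by
            rw [sub_one_mul_padicValNat_factorial]
            exact Nat.sub_le _ _
          have h4 : ((p : ℝ) - 1) * ((n.factorial).factorization p : ℝ) ≤ n := by
            rw [Nat.factorization_def _ hpp]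
            have h5 : (((p - 1) * padicValNat p n.factorial : ℕ) : ℝ) ≤ (n : ℝ) := by exact_mod_cast h3
            rw [Nat.cast_mul, Nat.cast_sub hpp.one_lt.le, Nat.cast_one] at h5
            exact h5
          have hp1 : (0 : ℝ) < (p : ℝ) - 1 := by
            have : (1 : ℝ) < p := by exact_mod_cast hpp.one_lt
            linarith
          have h5 : ((n.factorial).factorization p : ℝ) ≤ n / ((p : ℝ) - 1) := by
            rw [le_div_iff₀ hp1]; linarith
          calc ((n.factorial).factorization p : ℝ) * Real.log p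
              ≤ n / ((p : ℝ) - 1) * Real.log p :=
                mul_le_mul_of_nonneg_right h5 (Real.log_natCast_nonneg p)
            _ = (n : ℝ) * (Real.log p / ((p : ℝ) - 1)) := by ring
      _ ≤ ∑ p ∈ (range (n + 1)).filter Nat.Prime, (n : ℝ) * (Real.log p / ((p : ℝ) - 1)) := by
          apply sum_le_sum_of_subset_of_nonneg
          · intro p hp
            have hpp := Nat.prime_of_mem_primeFactors hp
            have hd := Nat.dvd_of_mem_primeFactors hp
            rw [mem_filter, mem_range]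
            exact ⟨Nat.lt_succ_of_le (hpp.dvd_factorial.mp hd), hpp⟩
          · intro p hp _
            have hpp := (mem_filter.mp hp).2
            have hp1 : (0 : ℝ) < (p : ℝ) - 1 := by
              have : (1 : ℝ) < p := by exact_mod_cast hpp.one_lt
              linarith
            have := Real.log_natCast_nonneg p
            positivity
  rw [← mul_sum] at h2
  have h3 : (n : ℝ) * (Real.log n - 1) ≤
      (n : ℝ) * ∑ p ∈ (range (n + 1)).filter Nat.Prime, Real.log p / ((p : ℝ) - 1) := by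
    linarith
  exact le_of_mul_le_mul_left h3 hn0

/-- odd primes up to `Q` -/
def PQ (Q : ℕ) : Finset ℕ := ((range (Q + 1)).filter Nat.Prime).erase 2

theorem term_bound (p : ℕ) (hp : p.Prime) :
    (4 / 3) * (Real.log p / ((p : ℝ) - 1)) - (32 / 3) * ((p : ℝ) ^ (-(3 / 2) : ℝ)) ≤
      Real.log p / ((3 * p + 1) / 4) := by
  have hp2 : (2 : ℝ) ≤ p := by exact_mod_cast hp.two_le
  have hp0 : (0 : ℝ) < p := by linarith
  have hlog : Real.log p ≤ 2 * Real.sqrt p := by
    have h1 : Real.log (Real.sqrt p) ≤ Real.sqrt p - 1 := Real.log_le_sub_one_of_pos (Real.sqrt_pos.mpr hp0)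
    rw [Real.log_sqrt hp0.le] at h1
    linarith
  have hl0 : 0 ≤ Real.log p := Real.log_natCast_nonneg p
  have h1 : (4 / 3) * (Real.log p / ((p : ℝ) - 1)) - Real.log p / ((3 * p + 1) / 4) =
      Real.log p * (16 / (3 * (((p : ℝ) - 1) * (3 * p + 1)))) := by
    have : ((p : ℝ) - 1) ≠ 0 := by linarith
    have : (3 * (p : ℝ) + 1) ≠ 0 := by linarith
    field_simp
    ring
  have h2 : Real.log p * (16 / (3 * (((p : ℝ) - 1) * (3 * p + 1)))) ≤
      (2 * Real.sqrt p) * (16 / (3 * ((p : ℝ) ^ 2))) := by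
    apply mul_le_mul hlog _ (div_nonneg (by norm_num) (mul_nonneg (by norm_num)
      (mul_nonneg (by linarith) (by linarith)))) (by positivity)
    apply div_le_div_of_nonneg_left (by norm_num) (by positivity)
    nlinarith
  have h3 : (2 * Real.sqrt p) * (16 / (3 * ((p : ℝ) ^ 2))) = (32 / 3) * ((p : ℝ) ^ (-(3 / 2) : ℝ)) := by
    have e1 : (p : ℝ) ^ (-(3 / 2) : ℝ) = Real.sqrt p / (p : ℝ) ^ 2 := by
      rw [Real.sqrt_eq_rpow, ← Real.rpow_natCast (p : ℝ) 2, ← Real.rpow_sub hp0]
      norm_num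
    rw [e1]
    have : (p : ℝ) ^ 2 ≠ 0 := by positivity
    field_simp
    ring
  linarith

theorem mertens_odd : ∃ C : ℝ, ∀ Q : ℕ, 2 ≤ Q →
    (4 / 3) * Real.log Q - C ≤ ∑ p ∈ PQ Q, Real.log p / ((3 * (p : ℝ) + 1) / 4) := by
  have hsum : Summable (fun n : ℕ => (n : ℝ) ^ (-(3 / 2) : ℝ)) :=
    Real.summable_nat_rpow.mpr (by norm_num)
  refine ⟨(4 / 3) * (1 + Real.log 2) + (32 / 3) * ∑' n : ℕ, (n : ℝ) ^ (-(3 / 2) : ℝ), ?_⟩
  intro Q hQ
  have h1 := mertens_low Q (by omega)
  have h2mem : 2 ∈ (range (Q + 1)).filter Nat.Prime := by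
    rw [mem_filter, mem_range]
    exact ⟨by omega, Nat.prime_two⟩
  have h2 : ∑ p ∈ (range (Q + 1)).filter Nat.Prime, Real.log p / ((p : ℝ) - 1) =
      Real.log 2 + ∑ p ∈ PQ Q, Real.log p / ((p : ℝ) - 1) := by
    rw [← add_sum_erase _ _ h2mem]
    unfold PQ
    norm_num
  have h3 : ∑ p ∈ PQ Q, ((4 / 3) * (Real.log p / ((p : ℝ) - 1)) - (32 / 3) * ((p : ℝ) ^ (-(3 / 2) : ℝ))) ≤
      ∑ p ∈ PQ Q, Real.log p / ((3 * (p : ℝ) + 1) / 4) := by
    apply sum_le_sum
    intro p hp
    exact term_bound p (mem_filter.mp (mem_of_mem_erase hp)).2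
  rw [sum_sub_distrib, ← mul_sum, ← mul_sum] at h3
  have h4 : ∑ p ∈ PQ Q, (p : ℝ) ^ (-(3 / 2) : ℝ) ≤ ∑' n : ℕ, (n : ℝ) ^ (-(3 / 2) : ℝ) :=
    hsum.sum_le_tsum _ (fun n _ => Real.rpow_nonneg (Nat.cast_nonneg n) _)
  linarith

theorem theta_bound (Q : ℕ) : ∑ p ∈ PQ Q, Real.log p ≤ Real.log 4 * Q := by
  have h1 := Chebyshev.theta_le_log4_mul_x (x := (Q : ℝ)) (by positivity)
  rw [Chebyshev.theta_eq_sum_primesLE_log] at h1
  refine le_trans ?_ h1
  apply sum_le_sum_of_subset_of_nonneg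
  · intro p hp
    have h2 := mem_filter.mp (mem_of_mem_erase hp)
    rw [mem_range] at h2
    exact Nat.mem_primesLE.mpr ⟨by omega, h2.2⟩
  · intro p _ _
    exact Real.log_natCast_nonneg p

end Pool.Agent.Helper590.Ke
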