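import Mathlib

set_option autoImplicit false

namespace Pool.Agent.Helper590.Ke

open Finset

/-- the primes dividing a positive integer have product at most that integer -/
theorem sum_log_le (P : Finset ℕ) (hP : ∀ p ∈ P, p.Prime) (d : ℕ) (hd : 0 < d) :
    ∑ p ∈ P.filter (fun p => p ∣ d), Real.log p ≤ Real.log d := by
  have h1 : (∏ p ∈ P.filter (fun p => p ∣ d), p) ∣ d := by
    apply Finset.prod_primes_dvd
    · intro p hp
      exact (hP p (mem_filter.mp hp).1).prime
    · intro p hp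
      exact (mem_filter.mp hp).2
  have h2 : (∏ p ∈ P.filter (fun p => p ∣ d), p) ≤ d := Nat.le_of_dvd hd h1
  rw [← Real.log_prod]
  · apply Real.log_le_log
    · apply Finset.prod_pos
      intro p hp
      exact_mod_cast (hP p (mem_filter.mp hp).1).pos
    · have h3 : ((∏ p ∈ P.filter (fun p => p ∣ d), p : ℕ) : ℝ) ≤ (d : ℝ) := by exact_mod_cast h2
      rw [Nat.cast_prod] at h3
      exact h3
  · intro p hp
    exact_mod_cast (hP p (mem_filter.mp hp).1).ne_zero

/-- Cauchy-Schwarz: number of pairs with the same value -/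
theorem pairs_ge' {α : Type} [DecidableEq α] (S : Finset ℕ) (f : ℕ → α) (ν : ℝ) (hν : 0 < ν)
    (hS : ((S.image f).card : ℝ) ≤ ν) :
    (S.card : ℝ) ^ 2 / ν ≤ (((S ×ˢ S).filter (fun q => f q.1 = f q.2)).card : ℝ) := by
  have h1 : (((S ×ˢ S).filter (fun q => f q.1 = f q.2)).card : ℝ) =
      ∑ x ∈ S, ((S.filter (fun b => f b = f x)).card : ℝ) := by
    rw [card_filter, sum_product, Nat.cast_sum]
    apply sum_congr rfl
    intro x _
    rw [card_filter]
    congr 1
    apply sum_congr rfl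
    intro y _
    simp only [eq_comm]
  have h1' : ∑ x ∈ S, ((S.filter (fun b => f b = f x)).card : ℝ) =
      ∑ c ∈ S.image f, ((S.filter (fun b => f b = c)).card : ℝ) ^ 2 := by
    rw [sum_comp (fun c => ((S.filter (fun b => f b = c)).card : ℝ)) f]
    apply sum_congr rfl
    intro c _
    rw [nsmul_eq_mul, sq]
  have h2 : (S.card : ℝ) = ∑ c ∈ S.image f, ((S.filter (fun b => f b = c)).card : ℝ) := by
    rw [← Nat.cast_sum, ← card_eq_sum_card_image f S]
  have h3 := sq_sum_le_card_mul_sum_sq (s := S.image f) (f := fun c => ((S.filter (fun b => f b = c)).card : ℝ))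
  rw [← h2] at h3
  rw [h1, h1', div_le_iff₀ hν]
  refine h3.trans ?_
  rw [mul_comm]
  exact mul_le_mul_of_nonneg_left hS (sum_nonneg (fun c _ => sq_nonneg _))

/-- number of pairs congruent modulo p -/
theorem pairs_ge (S : Finset ℕ) (p : ℕ) (ν : ℝ) (hν : 0 < ν)
    (hS : ((S.image (fun b : ℕ => (b : ZMod p))).card : ℝ) ≤ ν) :
    (S.card : ℝ) ^ 2 / ν ≤ (((S ×ˢ S).filter (fun q => (q.1 : ZMod p) = (q.2 : ZMod p))).card : ℝ) :=
  pairs_ge' S (fun b : ℕ => (b : ZMod p)) ν hν hS

/-- Gallagher's larger sieve -/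
theorem larger_sieve (S P : Finset ℕ) (L : ℕ) (_hL : 1 ≤ L) (hS : ∀ b ∈ S, b ≤ L) (hne : 0 < S.card)
    (hP : ∀ p ∈ P, p.Prime) (ν : ℕ → ℝ) (hν : ∀ p ∈ P, 0 < ν p)
    (hc : ∀ p ∈ P, ((S.image (fun b : ℕ => (b : ZMod p))).card : ℝ) ≤ ν p) :
    (S.card : ℝ) * (∑ p ∈ P, Real.log p / ν p - Real.log L) ≤ ∑ p ∈ P, Real.log p := by
  classical
  have hs0 : (0 : ℝ) < S.card := by exact_mod_cast hne
  have hlogL : 0 ≤ Real.log L := Real.log_natCast_nonneg L
  -- off-diagonal sum
  have hT : ∑ q ∈ (S ×ˢ S).filter (fun q => q.1 ≠ q.2),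
      ∑ p ∈ P.filter (fun p => (q.1 : ZMod p) = (q.2 : ZMod p)), Real.log p ≤
      (S.card : ℝ) ^ 2 * Real.log L := by
    calc _ ≤ ∑ q ∈ (S ×ˢ S).filter (fun q => q.1 ≠ q.2), Real.log L := by
          apply sum_le_sum
          intro q hq
          rw [mem_filter, mem_product] at hq
          obtain ⟨⟨h1, h2⟩, h3⟩ := hq
          have hd : 0 < Int.natAbs ((q.1 : ℤ) - q.2) := by omega
          have hdL : Int.natAbs ((q.1 : ℤ) - q.2) ≤ L := by
            have := hS _ h1
            have := hS _ h2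
            omega
          have h4 := sum_log_le P hP _ hd
          have h5 : P.filter (fun p => (q.1 : ZMod p) = (q.2 : ZMod p)) =
              P.filter (fun p => p ∣ Int.natAbs ((q.1 : ℤ) - q.2)) := by
            apply filter_congr
            intro p _
            rw [← Int.natCast_dvd, ← ZMod.intCast_zmod_eq_zero_iff_dvd]
            push_cast
            rw [sub_eq_zero]
          rw [h5]
          refine h4.trans (Real.log_le_log (by exact_mod_cast hd) (by exact_mod_cast hdL))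
      _ = (((S ×ˢ S).filter (fun q => q.1 ≠ q.2)).card : ℝ) * Real.log L := by
          rw [sum_const, nsmul_eq_mul]
      _ ≤ (S.card : ℝ) ^ 2 * Real.log L := by
          apply mul_le_mul_of_nonneg_right _ hlogL
          have h1 := card_filter_le (S ×ˢ S) (fun q => q.1 ≠ q.2)
          rw [card_product] at h1
          have h2 : ((((S ×ˢ S).filter (fun q => q.1 ≠ q.2)).card : ℕ) : ℝ) ≤ ((S.card * S.card : ℕ) : ℝ) := by
            exact_mod_cast h1
          push_cast at h2
          rw [sq]; exact h2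
  -- full sum
  have hfull : ∑ q ∈ S ×ˢ S, ∑ p ∈ P.filter (fun p => (q.1 : ZMod p) = (q.2 : ZMod p)), Real.log p =
      ∑ p ∈ P, (((S ×ˢ S).filter (fun q => (q.1 : ZMod p) = (q.2 : ZMod p))).card : ℝ) * Real.log p := by
    simp_rw [sum_filter]
    rw [sum_comm]
    apply sum_congr rfl
    intro p _
    rw [← sum_filter, sum_const, nsmul_eq_mul]
  have hsplit : ∑ q ∈ S ×ˢ S, ∑ p ∈ P.filter (fun p => (q.1 : ZMod p) = (q.2 : ZMod p)), Real.log p =
      ∑ q ∈ (S ×ˢ S).filter (fun q => q.1 ≠ q.2),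
        ∑ p ∈ P.filter (fun p => (q.1 : ZMod p) = (q.2 : ZMod p)), Real.log p +
      (S.card : ℝ) * ∑ p ∈ P, Real.log p := by
    rw [← sum_filter_add_sum_filter_not (S ×ˢ S) (fun q => q.1 ≠ q.2)]
    congr 1
    have h1 : ∀ q ∈ (S ×ˢ S).filter (fun q => ¬ q.1 ≠ q.2),
        ∑ p ∈ P.filter (fun p => (q.1 : ZMod p) = (q.2 : ZMod p)), Real.log p = ∑ p ∈ P, Real.log p := by
      intro q hq
      rw [mem_filter] at hq
      have h2 : q.1 = q.2 := by
        by_contra h3
        exact hq.2 h3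
      rw [h2]
      congr 1
      apply filter_true_of_mem
      intro p _
      rfl
    rw [sum_congr rfl h1, sum_const, nsmul_eq_mul]
    congr 1
    have h2 : ((S ×ˢ S).filter (fun q => ¬ q.1 ≠ q.2)).card = S.card := by
      rw [← diag_card S]
      congr 1
      ext q
      simp only [mem_filter, mem_product, mem_diag, not_not]
      constructor
      · rintro ⟨⟨h1, _⟩, h3⟩
        exact ⟨h1, h3⟩
      · rintro ⟨h1, h3⟩
        exact ⟨⟨h1, h3 ▸ h1⟩, h3⟩
    exact_mod_cast h2
  have hlow : (S.card : ℝ) ^ 2 * ∑ p ∈ P, Real.log p / ν p ≤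
      ∑ p ∈ P, (((S ×ˢ S).filter (fun q => (q.1 : ZMod p) = (q.2 : ZMod p))).card : ℝ) * Real.log p := by
    rw [mul_sum]
    apply sum_le_sum
    intro p hp
    have h1 := pairs_ge S p (ν p) (hν p hp) (hc p hp)
    have h2 := mul_le_mul_of_nonneg_right h1 (Real.log_natCast_nonneg p)
    calc (S.card : ℝ) ^ 2 * (Real.log p / ν p) = (S.card : ℝ) ^ 2 / ν p * Real.log p := by ring
      _ ≤ _ := h2
  have hmain : (S.card : ℝ) * ((S.card : ℝ) * (∑ p ∈ P, Real.log p / ν p - Real.log L)) ≤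
      (S.card : ℝ) * ∑ p ∈ P, Real.log p := by
    nlinarith
  exact le_of_mul_le_mul_left hmain hs0

end Pool.Agent.Helper590.Ke
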