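import Mathlib
import Pool.Agent.Helper590.Ke.Local
import Pool.Agent.Helper590.Ke.Sieve
import Pool.Agent.Helper590.Ke.Mertens

set_option autoImplicit false

namespace Pool.Agent.Helper590.Ke

open Finset

open Classical in
/-- the non-representable `a^2 + b` with `0 ≤ b ≤ 2a` -/
noncomputable def SA (a : ℕ) : Finset ℕ := (range (2 * a + 1)).filter (fun b => ¬ Representable (a ^ 2 + b))

open Classical in
theorem mem_SA (a b : ℕ) : b ∈ SA a ↔ b < 2 * a + 1 ∧ ¬ Representable (a ^ 2 + b) := by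
  unfold SA
  rw [mem_filter, mem_range]

theorem SA_large (C : ℝ) (hC : ∀ Q : ℕ, 2 ≤ Q →
    (4 / 3) * Real.log Q - C ≤ ∑ p ∈ PQ Q, Real.log p / ((3 * (p : ℝ) + 1) / 4))
    (D R a : ℕ) (hD : 2 ≤ D) (hD2 : C + 1 + Real.log 2 ≤ (4 / 3) * Real.log D) (hR : 1 ≤ R) (haR : a < R ^ 4)
    (hQa : 2 * (D * R ^ 3) ≤ a) : ((SA a).card : ℝ) ≤ 2 * (D * R ^ 3 : ℕ) := by
  have hR3 : 1 ≤ R ^ 3 := Nat.one_le_pow _ _ hR
  have hQ2 : 2 ≤ D * R ^ 3 := by nlinarith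
  have ha1 : 1 ≤ a := by omega
  rcases Nat.eq_zero_or_pos (SA a).card with h0 | h0
  · rw [h0, Nat.cast_zero]; positivity
  have hmem : ∀ b ∈ SA a, b ≤ 2 * a ∧ ¬ Representable (a ^ 2 + b) := by
    intro b hb
    rw [mem_SA] at hb
    exact ⟨by omega, hb.2⟩
  have hPQ : ∀ p ∈ PQ (D * R ^ 3), p.Prime ∧ p ≠ 2 ∧ 2 * p ≤ a := by
    intro p hp
    unfold PQ at hp
    rw [mem_erase, mem_filter, mem_range] at hp
    exact ⟨hp.2.2, hp.1, by omega⟩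
  have h1 := larger_sieve (SA a) (PQ (D * R ^ 3)) (2 * a) (by omega) (fun b hb => (hmem b hb).1) h0
    (fun p hp => (hPQ p hp).1) (fun p => (3 * (p : ℝ) + 1) / 4) (fun p _ => by positivity) (fun p hp => by
      have h2 := image_card a p (hPQ p hp).1 (hPQ p hp).2.1 (hPQ p hp).2.2 (SA a) hmem
      have h3 : ((4 * ((SA a).image (fun b : ℕ => (b : ZMod p))).card : ℕ) : ℝ) ≤ ((3 * p + 1 : ℕ) : ℝ) := by
        exact_mod_cast h2
      push_cast at h3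
      linarith)
  have h2 := hC (D * R ^ 3) hQ2
  have h3 := theta_bound (D * R ^ 3)
  have hDpos : (0 : ℝ) < D := by
    have : 0 < D := by omega
    exact_mod_cast this
  have hRpos : (0 : ℝ) < R := by exact_mod_cast hR
  have hlogQ : Real.log ((D * R ^ 3 : ℕ) : ℝ) = Real.log D + 3 * Real.log R := by
    push_cast
    rw [Real.log_mul hDpos.ne' (by positivity), Real.log_pow]
    norm_num
  have hloga : Real.log ((2 * a : ℕ) : ℝ) ≤ Real.log 2 + 4 * Real.log R := by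
    push_cast
    have hapos : (0 : ℝ) < a := by exact_mod_cast ha1
    rw [Real.log_mul (by norm_num) hapos.ne']
    have : Real.log a ≤ Real.log ((R : ℝ) ^ 4) := by
      apply Real.log_le_log hapos
      exact_mod_cast haR.le
    rw [Real.log_pow] at this
    norm_num at this
    linarith
  rw [hlogQ] at h2
  have h4 : 1 ≤ ∑ p ∈ PQ (D * R ^ 3), Real.log p / ((3 * (p : ℝ) + 1) / 4) - Real.log ((2 * a : ℕ) : ℝ) := by
    linarith
  have h5 : ((SA a).card : ℝ) * 1 ≤ ((SA a).card : ℝ) *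
      (∑ p ∈ PQ (D * R ^ 3), Real.log p / ((3 * (p : ℝ) + 1) / 4) - Real.log ((2 * a : ℕ) : ℝ)) :=
    mul_le_mul_of_nonneg_left h4 (by positivity)
  have h6 : Real.log 4 ≤ 2 := by
    have e1 : Real.log 4 = 2 * Real.log 2 := by
      have : (4 : ℝ) = 2 ^ 2 := by norm_num
      rw [this, Real.log_pow]
      norm_num
    have e2 : Real.log 2 ≤ 1 := by
      have := Real.log_two_lt_d9
      linarith
    linarith
  have h7 : Real.log 4 * ((D * R ^ 3 : ℕ) : ℝ) ≤ 2 * ((D * R ^ 3 : ℕ) : ℝ) :=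
    mul_le_mul_of_nonneg_right h6 (by positivity)
  linarith

theorem SA_bound : ∃ D : ℕ, ∀ R a : ℕ, 1 ≤ R → a < R ^ 4 → (SA a).card ≤ 5 * D * R ^ 3 := by
  obtain ⟨C, hC⟩ := mertens_odd
  -- choose D
  obtain ⟨D, hD⟩ := exists_nat_ge (Real.exp ((3 / 4) * (C + 1 + Real.log 2)) + 2)
  have hD2 : (2 : ℝ) ≤ D := by
    have := Real.exp_pos ((3 / 4) * (C + 1 + Real.log 2))
    linarith
  have hDlog : C + 1 + Real.log 2 ≤ (4 / 3) * Real.log D := by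
    have h1 : Real.exp ((3 / 4) * (C + 1 + Real.log 2)) ≤ D := by linarith
    have h2 := Real.log_le_log (Real.exp_pos _) h1
    rw [Real.log_exp] at h2
    linarith
  refine ⟨D, ?_⟩
  intro R a hR haR
  have hR3 : 1 ≤ R ^ 3 := Nat.one_le_pow _ _ hR
  have hD2' : 2 ≤ D := by exact_mod_cast hD2
  have hQ2 : 2 ≤ D * R ^ 3 := by nlinarith
  rcases le_or_gt (2 * (D * R ^ 3)) a with h | h
  · have h1 := SA_large C hC D R a hD2' hDlog hR haR h
    have h2 : (SA a).card ≤ 2 * (D * R ^ 3) := by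
      have h3 : ((SA a).card : ℝ) ≤ ((2 * (D * R ^ 3) : ℕ) : ℝ) := by
        push_cast at h1 ⊢
        exact h1
      exact_mod_cast h3
    have : 5 * D * R ^ 3 = 5 * (D * R ^ 3) := by ring
    omega
  · have h1 : (SA a).card ≤ 2 * a + 1 := by
      have h2 : SA a ⊆ range (2 * a + 1) := by
        intro b hb
        rw [mem_range]
        exact ((mem_SA a b).mp hb).1
      have h3 := card_le_card h2
      rwa [card_range] at h3
    have : 5 * D * R ^ 3 = 5 * (D * R ^ 3) := by ring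
    omega

theorem main_nat : ∃ D : ℕ, ∀ N R : ℕ, 1 ≤ R → N ≤ R ^ 8 →
    {n : ℕ | 0 < n ∧ n < N ∧ ¬ Representable n}.ncard ≤ 5 * D * R ^ 7 := by
  classical
  obtain ⟨D, hD⟩ := SA_bound
  refine ⟨D, ?_⟩
  intro N R hR hN
  have hsub : {n : ℕ | 0 < n ∧ n < N ∧ ¬ Representable n} ⊆
      (((range (R ^ 4)).biUnion (fun a => (SA a).image (fun b => a ^ 2 + b)) : Finset ℕ) : Set ℕ) := by
    rintro n ⟨h1, h2, h3⟩
    rw [Finset.mem_coe, mem_biUnion]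
    have h4 : Nat.sqrt n ^ 2 ≤ n := Nat.sqrt_le' n
    have h5 : n ≤ Nat.sqrt n * Nat.sqrt n + Nat.sqrt n + Nat.sqrt n := Nat.sqrt_le_add n
    have h6 : Nat.sqrt n ^ 2 + (n - Nat.sqrt n ^ 2) = n := by omega
    refine ⟨Nat.sqrt n, ?_, ?_⟩
    · rw [mem_range]
      by_contra hcon
      have h7 : R ^ 4 ≤ Nat.sqrt n := not_lt.mp hcon
      have h8 : (R ^ 4) ^ 2 ≤ Nat.sqrt n ^ 2 := Nat.pow_le_pow_left h7 2
      have h9 : (R ^ 4) ^ 2 = R ^ 8 := by ring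
      omega
    · rw [mem_image]
      refine ⟨n - Nat.sqrt n ^ 2, ?_, h6⟩
      rw [mem_SA, h6]
      refine ⟨?_, h3⟩
      have : Nat.sqrt n ^ 2 = Nat.sqrt n * Nat.sqrt n := by ring
      omega
  have h1 := Set.ncard_le_ncard hsub (Finset.finite_toSet _)
  rw [Set.ncard_coe_finset] at h1
  refine h1.trans ?_
  refine card_biUnion_le.trans ?_
  calc ∑ a ∈ range (R ^ 4), ((SA a).image (fun b => a ^ 2 + b)).card
      ≤ ∑ a ∈ range (R ^ 4), 5 * D * R ^ 3 := by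
        apply sum_le_sum
        intro a ha
        exact card_image_le.trans (hD R a hR (mem_range.mp ha))
    _ = 5 * D * R ^ 7 := by
        rw [sum_const, card_range, smul_eq_mul]; ring

theorem main_real : ∃ C : ℝ, ∀ N : ℕ, 1 ≤ N →
    ({n : ℕ | 0 < n ∧ n < N ∧ ¬ Representable n}.ncard : ℝ) ≤ C * (N : ℝ) ^ (7 / 8 : ℝ) := by
  obtain ⟨D, hD⟩ := main_nat
  refine ⟨5 * D * 128, ?_⟩
  intro N hN
  have hN1 : (1 : ℝ) ≤ N := by exact_mod_cast hN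
  have hN0 : (0 : ℝ) ≤ N := by linarith
  set t : ℝ := (N : ℝ) ^ (1 / 8 : ℝ) with ht
  have ht1 : 1 ≤ t := Real.one_le_rpow hN1 (by norm_num)
  have ht8 : t ^ 8 = N := by
    rw [ht, ← Real.rpow_natCast, ← Real.rpow_mul hN0]
    norm_num
  have ht7 : t ^ 7 = (N : ℝ) ^ (7 / 8 : ℝ) := by
    rw [ht, ← Real.rpow_natCast, ← Real.rpow_mul hN0]
    norm_num
  have hR1 : t ≤ (⌈t⌉₊ : ℝ) := Nat.le_ceil t
  have hR2 : (⌈t⌉₊ : ℝ) < t + 1 := Nat.ceil_lt_add_one (by linarith)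
  have hRpos : 1 ≤ ⌈t⌉₊ := by
    have : (1 : ℝ) ≤ (⌈t⌉₊ : ℝ) := by linarith
    exact_mod_cast this
  have hNR : N ≤ ⌈t⌉₊ ^ 8 := by
    have h1 : t ^ 8 ≤ (⌈t⌉₊ : ℝ) ^ 8 := pow_le_pow_left₀ (by linarith) hR1 8
    rw [ht8] at h1
    exact_mod_cast h1
  have h1 := hD N ⌈t⌉₊ hRpos hNR
  have h2 : ({n : ℕ | 0 < n ∧ n < N ∧ ¬ Representable n}.ncard : ℝ) ≤ 5 * D * (⌈t⌉₊ : ℝ) ^ 7 := by
    have h3 : ({n : ℕ | 0 < n ∧ n < N ∧ ¬ Representable n}.ncard : ℝ) ≤ ((5 * D * ⌈t⌉₊ ^ 7 : ℕ) : ℝ) := by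
      exact_mod_cast h1
    push_cast at h3
    exact h3
  have h3 : (⌈t⌉₊ : ℝ) ^ 7 ≤ (2 * t) ^ 7 := pow_le_pow_left₀ (by positivity) (by linarith) 7
  have h4 : (2 * t) ^ 7 = 128 * t ^ 7 := by ring
  rw [h4, ht7] at h3
  calc ({n : ℕ | 0 < n ∧ n < N ∧ ¬ Representable n}.ncard : ℝ) ≤ 5 * D * (⌈t⌉₊ : ℝ) ^ 7 := h2
    _ ≤ 5 * D * (128 * (N : ℝ) ^ (7 / 8 : ℝ)) := mul_le_mul_of_nonneg_left h3 (by positivity)
    _ = 5 * D * 128 * (N : ℝ) ^ (7 / 8 : ℝ) := by ring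

end Pool.Agent.Helper590.Ke
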